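import Pool.Agent.helper4.NF.SpecB

/-!
# Project nf, part YC: the dual large sieve at rational points
-/

set_option autoImplicit false

open Complex MeasureTheory

namespace Pool.Agent.NF

open Pool.Agent.helper84.DM Pool.Agent.helper78.ED Pool.Agent.DH Pool.Agent.ZD

theorem YC_mem (N i : ℕ) (r : ℕ × ℕ) (hN : 1 ≤ N) (hr : r ∈ RF N i) :
    1 ≤ r.1 ∧ 1 ≤ r.2 ∧ r.2 ≤ 2 ^ (i + 1) ∧ Nat.Coprime r.1 r.2 ∧ N * r.2 ≤ 400 * r.1 ∧
      r.1 ≤ 400 * N * r.2 := by
  unfold RF at hr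
  rw [Finset.mem_filter, Finset.mem_product, Finset.mem_Icc, Finset.mem_Ico] at hr
  obtain ⟨⟨⟨h1, _⟩, h3, h4⟩, h5, h6, h7⟩ := hr
  exact ⟨h1, le_trans (Nat.one_le_two_pow) h3, h4.le, h5, h6, h7⟩

/-- one sided separation. -/
theorem YC_sep1 (N i : ℕ) (p q p' q' : ℕ) (hp : 1 ≤ p) (hq : 1 ≤ q) (hp' : 1 ≤ p')
    (hq' : 1 ≤ q') (hq2 : q ≤ 2 ^ (i + 1)) (hq2' : q' ≤ 2 ^ (i + 1)) (hpb : p ≤ 400 * N * q)
    (hN : 1 ≤ N) (h : p' * q < p * q') :
    1 / (1600 * N * 4 ^ i : ℝ) ≤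
      (Real.log p - Real.log q) - (Real.log p' - Real.log q') := by
  have p0 : (0 : ℝ) < p := by exact_mod_cast hp
  have q0 : (0 : ℝ) < q := by exact_mod_cast hq
  have p0' : (0 : ℝ) < p' := by exact_mod_cast hp'
  have q0' : (0 : ℝ) < q' := by exact_mod_cast hq'
  have N0 : (0 : ℝ) < N := by exact_mod_cast hN
  have e1 : (Real.log p - Real.log q) - (Real.log p' - Real.log q')
      = Real.log ((p * q') / (p' * q)) := by
    rw [Real.log_div (by positivity) (by positivity), Real.log_mul p0.ne' q0'.ne',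
      Real.log_mul p0'.ne' q0.ne']
    ring
  rw [e1]
  have h1 := Real.one_sub_inv_le_log_of_pos
    (show (0 : ℝ) < ((p : ℝ) * q') / (p' * q) by positivity)
  refine le_trans ?_ h1
  rw [inv_div]
  have h2 : (p' : ℝ) * q + 1 ≤ p * q' := by exact_mod_cast h
  have h3 : (1 : ℝ) / (p * q') ≤ 1 - (p' * q) / (p * q') := by
    rw [div_le_iff₀ (by positivity), sub_mul, div_mul_cancel₀ _ (by positivity)]
    linarith
  refine le_trans ?_ h3
  apply one_div_le_one_div_of_le (by positivity)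
  have a1 : (p : ℝ) ≤ 400 * N * q := by exact_mod_cast hpb
  have a2 : (q : ℝ) ≤ 2 ^ (i + 1) := by exact_mod_cast hq2
  have a3 : (q' : ℝ) ≤ 2 ^ (i + 1) := by exact_mod_cast hq2'
  calc (p : ℝ) * q' ≤ (400 * N * 2 ^ (i + 1)) * 2 ^ (i + 1) := by
        apply mul_le_mul _ a3 q0'.le (by positivity)
        refine a1.trans ?_
        gcongr
    _ = 1600 * N * 4 ^ i := by
        have : (4 : ℝ) ^ i = 2 ^ i * 2 ^ i := by
          rw [← mul_pow]
          norm_num
        rw [this, pow_succ]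
        ring

theorem YC_sep (N i : ℕ) (hN : 1 ≤ N) (r r' : ℕ × ℕ) (hr : r ∈ RF N i) (hr' : r' ∈ RF N i)
    (hne : r ≠ r') : 1 / (1600 * N * 4 ^ i : ℝ) ≤
      |(Real.log r.1 - Real.log r.2) - (Real.log r'.1 - Real.log r'.2)| := by
  obtain ⟨a1, a2, a3, a4, a5, a6⟩ := YC_mem N i r hN hr
  obtain ⟨b1, b2, b3, b4, b5, b6⟩ := YC_mem N i r' hN hr'
  rcases lt_trichotomy (r'.1 * r.2) (r.1 * r'.2) with h | h | h
  · exact (YC_sep1 N i _ _ _ _ a1 a2 b1 b2 a3 b3 a6 hN h).trans (le_abs_self _)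
  · exfalso
    apply hne
    have d1 : r.1 ∣ r'.1 := by
      have : r.1 ∣ r'.1 * r.2 := h ▸ dvd_mul_right _ _
      exact a4.dvd_of_dvd_mul_right this
    have d2 : r'.1 ∣ r.1 := by
      have : r'.1 ∣ r.1 * r'.2 := h ▸ dvd_mul_right _ _
      exact b4.dvd_of_dvd_mul_right this
    have e1 : r.1 = r'.1 := Nat.dvd_antisymm d1 d2
    have e2 : r.2 = r'.2 := by
      rw [e1] at h
      exact Nat.eq_of_mul_eq_mul_left b1 h
    exact Prod.ext e1 e2
  · rw [abs_sub_comm]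
    exact (YC_sep1 N i _ _ _ _ b1 b2 a1 a2 b3 a3 b6 hN h).trans (le_abs_self _)

theorem YC (h : LSC_stmt) : YC_stmt := by
  classical
  obtain ⟨C, hC, hL⟩ := h
  refine ⟨1600 * C, by positivity, ?_⟩
  intro T W f N i θ hT hW hN hθ
  have N1 : (1 : ℝ) ≤ N := by exact_mod_cast hN
  have h4 : (1 : ℝ) ≤ 4 ^ i := one_le_pow₀ (by norm_num)
  have hNN : (1 : ℝ) ≤ N * 4 ^ i := one_le_mul_of_one_le_of_one_le N1 h4
  set η : ℝ := 1 / (1600 * N * 4 ^ i : ℝ) with hη
  have hη0 : 0 < η := by positivity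
  have hη1 : η ≤ 1 := by
    rw [hη, div_le_one (by positivity)]
    nlinarith
  set φ : ℕ × ℕ → ℝ := fun r => Real.log r.1 - Real.log r.2 - Real.log N + θ with hφ
  have hdiff : ∀ r r' : ℕ × ℕ, φ r - φ r'
      = (Real.log r.1 - Real.log r.2) - (Real.log r'.1 - Real.log r'.2) := by
    intro r r'
    simp only [hφ]
    ring
  have hsep : ∀ r ∈ RF N i, ∀ r' ∈ RF N i, r ≠ r' → η ≤ |φ r - φ r'| := by
    intro r hr r' hr' hne
    rw [hdiff]
    exact YC_sep N i hN r r' hr hr' hne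
  have hinj : Set.InjOn φ (RF N i) := by
    intro r hr r' hr' he
    by_contra hne
    have := hsep r hr r' hr' hne
    rw [he, sub_self, abs_zero] at this
    linarith
  have hb : ∀ r ∈ RF N i, |φ r| ≤ 20 := by
    intro r hr
    obtain ⟨a1, a2, a3, a4, a5, a6⟩ := YC_mem N i r hN hr
    have p0 : (0 : ℝ) < r.1 := by exact_mod_cast a1
    have q0 : (0 : ℝ) < r.2 := by exact_mod_cast a2
    have N0 : (0 : ℝ) < N := by linarith
    have c5 : (N : ℝ) * r.2 ≤ 400 * r.1 := by exact_mod_cast a5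
    have c6 : (r.1 : ℝ) ≤ 400 * N * r.2 := by exact_mod_cast a6
    have l400 : Real.log 400 ≤ 9 := by
      have h1 : Real.log 400 ≤ Real.log (2 ^ 9) := Real.log_le_log (by norm_num) (by norm_num)
      rw [Real.log_pow] at h1
      have h2 := Real.log_two_lt_d9
      push_cast at h1
      linarith
    have d5 := Real.log_le_log (by positivity) c5
    have d6 := Real.log_le_log (by positivity) c6
    rw [Real.log_mul N0.ne' q0.ne', Real.log_mul (by norm_num) p0.ne'] at d5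
    rw [Real.log_mul (by positivity) q0.ne', Real.log_mul (by norm_num) N0.ne'] at d6
    have t1 := abs_le.mp hθ
    rw [abs_le]
    simp only [hφ]
    constructor <;> linarith [t1.1, t1.2]
  have hmain := hL T η W f ((RF N i).image φ) hT hη0 hη1 hW
    (by
      intro x hx
      obtain ⟨r, hr, rfl⟩ := Finset.mem_image.mp hx
      exact hb r hr)
    (by
      intro x hx x' hx' hne
      obtain ⟨r, hr, rfl⟩ := Finset.mem_image.mp hx
      obtain ⟨r', hr', rfl⟩ := Finset.mem_image.mp hx'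
      apply hsep r hr r' hr'
      intro he
      exact hne (by rw [he]))
  rw [Finset.sum_image hinj] at hmain
  refine hmain.trans ?_
  have hS : 0 ≤ ∑ t ∈ W, ‖f t‖ ^ 2 := Finset.sum_nonneg fun t _ => by positivity
  apply mul_le_mul_of_nonneg_right _ hS
  rw [hη, one_div_one_div]
  have : C * (T + 1600 * N * 4 ^ i) ≤ C * (1600 * (T + N * 4 ^ i)) := by
    apply mul_le_mul_of_nonneg_left _ hC.le
    nlinarith
  calc C * (T + 1600 * N * 4 ^ i) ≤ C * (1600 * (T + N * 4 ^ i)) := this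
    _ = 1600 * C * (T + N * 4 ^ i) := by ring

end Pool.Agent.NF
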